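import Pool.Agent.TH703.HU.Stm

/-! # Project HU, B8: passage to the limit `ε → 0` -/

set_option autoImplicit false

open MeasureTheory Set Metric Filter Topology
open scoped ENNReal Real

noncomputable section

namespace Pool.Agent.TH340.HU

open Pool.Agent.TH304.MI Pool.Agent.TH703.HU

lemma continuous_xc {b : ℕ} : Continuous (xc : PP b → ℂ) := by
  have h : (xc : PP b → ℂ) = fun p => Complex.equivRealProdCLM.symm (p 0, p 1) := by
    funext p
    apply Complex.ext <;> simp [xc]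
  rw [h]
  exact Complex.equivRealProdCLM.symm.continuous.comp (by fun_prop)

lemma cylO_eq {b : ℕ} (Ω : Set (PP b)) (A : Set ℂ) : cylO Ω A = Ω ∩ xc ⁻¹' A := rfl

lemma meas_cylO {b : ℕ} {Ω : Set (PP b)} (hΩ : IsOpen Ω) {A : Set ℂ} (hA : MeasurableSet A) :
    MeasurableSet (cylO Ω A) := by
  rw [cylO_eq]
  exact hΩ.measurableSet.inter (continuous_xc.measurable hA)

lemma sc_apply {b : ℕ} (ε : ℝ) (p : PP b) (i : Fin (b + 2)) :
    sc ε p i = if (i : ℕ) < 2 then p i else ε * p i := rfl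

lemma norm_sc_le {b : ℕ} {ε : ℝ} (h0 : 0 ≤ ε) (h1 : ε ≤ 1) (p : PP b) : ‖sc ε p‖ ≤ ‖p‖ := by
  rw [EuclideanSpace.norm_eq, EuclideanSpace.norm_eq]
  apply Real.sqrt_le_sqrt
  apply Finset.sum_le_sum
  intro i _
  rw [sc_apply]
  split_ifs with h
  · exact le_rfl
  · rw [norm_mul, Real.norm_of_nonneg h0]
    have h2 : 0 ≤ ‖p i‖ := norm_nonneg _
    have h3 : ε * ‖p i‖ ≤ ‖p i‖ := by nlinarith
    have h4 : 0 ≤ ε * ‖p i‖ := by positivity
    nlinarith

lemma sc_one {b : ℕ} (p : PP b) : sc 1 p = p := by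
  ext i
  rw [sc_apply]
  split_ifs <;> simp

lemma sc_of_yc {b : ℕ} (ε : ℝ) (p : PP b) (h : yc p = 0) : sc ε p = p := by
  ext i
  rw [sc_apply]
  split_ifs with hi
  · rfl
  · have h2 : 2 ≤ (i : ℕ) := by omega
    obtain ⟨j, hj⟩ : ∃ j : Fin b, i = j.succ.succ := by
      refine ⟨⟨(i : ℕ) - 2, by have := i.2; omega⟩, ?_⟩
      ext
      simp
      omega
    have h3 : p i = 0 := by
      rw [hj]
      exact congrFun h j
    rw [h3, mul_zero]

lemma norm_sc_of_xc {b : ℕ} {ε : ℝ} (h0 : 0 ≤ ε) (p : PP b) (h : xc p = 0) :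
    ‖sc ε p‖ = ε * ‖p‖ := by
  have h1 : sc ε p = ε • p := by
    ext i
    rw [sc_apply, PiLp.smul_apply, smul_eq_mul]
    split_ifs with hi
    · have h2 : p i = 0 := by
        have hre : p 0 = 0 := congrArg Complex.re h
        have him : p 1 = 0 := congrArg Complex.im h
        rcases Nat.lt_or_ge (i : ℕ) 1 with h3 | h3
        · have : i = 0 := Fin.ext (by rw [Fin.val_zero]; omega)
          rw [this]; exact hre
        · have : i = 1 := Fin.ext (by rw [Fin.val_one]; omega)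
          rw [this]; exact him
      rw [h2, mul_zero]
    · rfl
  rw [h1, norm_smul, Real.norm_of_nonneg h0]

lemma Fld.mono_eps {b : ℕ} {ε : ℝ} (h0 : 0 ≤ ε) (h1 : ε ≤ 1) {Ω : Set (PP b)} {φ : PP b → PP b}
    (h : Fld 1 Ω φ) : Fld ε Ω φ :=
  ⟨h.cd, h.cs, h.sub, fun x => (norm_sc_le h0 h1 _).trans (by have := h.bd x; rwa [sc_one] at this)⟩

lemma PLe.one {b : ℕ} {ε : ℝ} (h0 : 0 ≤ ε) (h1 : ε ≤ 1) {Ω G : Set (PP b)} {C : ℝ}
    (h : PLe ε Ω G C) : PLe 1 Ω G C := fun φ hφ => h φ (Fld.mono_eps h0 h1 hφ)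

lemma dv_smul {n : ℕ} (c : ℝ) {φ : EuclideanSpace ℝ (Fin n) → EuclideanSpace ℝ (Fin n)}
    (hφ : Differentiable ℝ φ) (x : EuclideanSpace ℝ (Fin n)) :
    dv (fun y => c • φ y) x = c * dv φ x := by
  unfold dv
  have h : fderiv ℝ (fun y => c • φ y) x = c • fderiv ℝ φ x :=
    fderiv_const_smul (hφ x) c
  rw [h]
  simp

lemma cd_smul {b : ℕ} (c : ℝ) {φ : PP b → PP b} (hφ : ContDiff ℝ 1 φ) :
    ContDiff ℝ 1 (fun y => c • φ y) := hφ.const_smul c

lemma cs_smul {b : ℕ} (c : ℝ) {φ : PP b → PP b} (hφ : HasCompactSupport φ) :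
    HasCompactSupport (fun y => c • φ y) :=
  hφ.comp_left (g := fun v : PP b => c • v) (smul_zero c)

lemma sub_smul' {b : ℕ} (c : ℝ) {φ : PP b → PP b} :
    tsupport (fun y => c • φ y) ⊆ tsupport φ := by
  apply closure_mono
  intro y hy
  rw [Function.mem_support] at hy ⊢
  intro h
  apply hy
  rw [h, smul_zero]

lemma xc_smul {b : ℕ} (c : ℝ) {p : PP b} (h : xc p = 0) : xc (c • p) = 0 := by
  have hre : p 0 = 0 := congrArg Complex.re h
  have him : p 1 = 0 := congrArg Complex.im h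
  apply Complex.ext
  · simp [xc, hre]
  · simp [xc, him]

lemma int_dv_smul {b : ℕ} (c : ℝ) {φ : PP b → PP b} (hφ : ContDiff ℝ 1 φ) (S : Set (PP b)) :
    ∫ x in S, dv (fun y => c • φ y) x = c * ∫ x in S, dv φ x := by
  rw [← integral_const_mul]
  congr 1
  funext x
  exact dv_smul _ (hφ.differentiable one_ne_zero) x

lemma NN_pos (c0 : S_C0) (m : ℕ) : 0 < NN m := by
  rcases Nat.eq_zero_or_pos m with h | h
  · subst h
    simp [NN]
  · exact (c0 m h).1

lemma volume_lt_top {b : ℕ} {Ω S : Set (PP b)} (hb : Bornology.IsBounded Ω) (hS : S ⊆ Ω) :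
    volume S < ⊤ := (hb.subset hS).measure_lt_top

lemma real_tendsto {b : ℕ} {Ω : Set (PP b)} (hb : Bornology.IsBounded Ω)
    {F : ℕ → Set (PP b)} {F0 : Set (PP b)} (hF : ∀ k, F k ⊆ Ω) (hF0 : F0 ⊆ Ω)
    (hm : ∀ k, MeasurableSet (F k)) (hm0 : MeasurableSet F0)
    (h : Tendsto (fun k => volume (symmDiff (F k) F0)) atTop (𝓝 0)) :
    Tendsto (fun k => volume.real (F k)) atTop (𝓝 (volume.real F0)) := by
  rw [tendsto_iff_dist_tendsto_zero]
  have h1 : Tendsto (fun k => volume.real (symmDiff (F k) F0)) atTop (𝓝 0) := by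
    have := (ENNReal.tendsto_toReal (a := 0) (by simp)).comp h
    simpa [Measure.real, Function.comp_def] using this
  refine squeeze_zero (fun k => dist_nonneg) (fun k => ?_) h1
  rw [Real.dist_eq]
  exact abs_measureReal_sub_le_measureReal_symmDiff' (hm k).nullMeasurableSet
    hm0.nullMeasurableSet (volume_lt_top hb (hF k)).ne (volume_lt_top hb hF0).ne

lemma symm_mono {b : ℕ} {F F0 G : Set (PP b)} (h : volume (symmDiff F0 G) = 0) :
    volume (symmDiff F G) ≤ volume (symmDiff F F0) := by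
  calc volume (symmDiff F G) ≤ volume (symmDiff F F0) + volume (symmDiff F0 G) :=
        measure_symmDiff_le F F0 G
    _ = volume (symmDiff F F0) := by rw [h, add_zero]

theorem b8 (a0 : S_A0) (a1 : S_A1) (a2 : S_A2) (a3 : S_A3) (b1 : S_B1) (b2 : S_B2)
    (b4 : S_B4) (c0 : S_C0) : S_B8 := by
  intro m Λ v hΛ hv ε F hε hlim hmin
  obtain ⟨ho, hc, hb, h0⟩ := a0 m
  have hNN := NN_pos c0 m
  -- the uniform perimeter bound
  set P : ℝ := Λ * (NN m * v) with hP
  have hPk : ∀ k, PLe (ε k) (Bd m) (F k) P := by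
    intro k φ hφ
    have h1 : PLe (ε k) (Bd m) (∅ : Set (PP (2 * m + 1))) 0 := by
      intro φ _
      simp
    have h2 := (hmin k).min ∅ 0 MeasurableSet.empty (empty_subset _)
      (by simp; positivity) h1 φ hφ
    refine h2.trans ?_
    rw [hP]
    have h3 := (hmin k).le
    have h4 : volume.real (∅ : Set (PP (2 * m + 1))) = 0 := by simp
    rw [h4, zero_add, sub_zero]
    exact mul_le_mul_of_nonneg_left h3 hΛ
  have hP0 : 0 ≤ P := by positivity
  -- compactness
  obtain ⟨F0, ψ, hF0m, hF0s, hψ, hψl⟩ := b1 _ (Bd m) ho hc hb F P (fun k => (hmin k).meas)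
    (fun k => (hmin k).sub) (fun k => PLe.one (hε k).1.le (hε k).2 (hPk k))
  -- the limit has zero y-divergence
  have hdiv : ∀ φ : PP (2 * m + 1) → PP (2 * m + 1), ContDiff ℝ 1 φ → HasCompactSupport φ →
      tsupport φ ⊆ Bd m → (∀ p, xc (φ p) = 0) → ∫ x in F0, dv φ x = 0 := by
    have key : ∀ φ : PP (2 * m + 1) → PP (2 * m + 1), ContDiff ℝ 1 φ → HasCompactSupport φ →
      tsupport φ ⊆ Bd m → (∀ p, xc (φ p) = 0) → ∫ x in F0, dv φ x ≤ 0 := by
      intro φ hφ hcs hsub hx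
      obtain ⟨M, hM⟩ : ∃ M : ℝ, ∀ p, ‖φ p‖ ≤ M := hφ.continuous.bounded_above_of_compact_support hcs
      have hM1 : (0 : ℝ) < max M 1 := lt_of_lt_of_le one_pos (le_max_right _ _)
      have hM2 : ∀ p, ‖φ p‖ ≤ max M 1 := fun p => (hM p).trans (le_max_left _ _)
      set M' := max M 1
      have hk : ∀ k, ∫ x in F k, dv φ x ≤ ε k * M' * P := by
        intro k
        have he := (hε k).1
        have hpos : 0 < ε k * M' := mul_pos he hM1
        have hfld : Fld (ε k) (Bd m) (fun p => (ε k * M')⁻¹ • φ p) := by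
          refine ⟨cd_smul _ hφ, cs_smul _ hcs, (sub_smul' _).trans hsub, ?_⟩
          intro p
          have h1 : xc ((ε k * M')⁻¹ • φ p) = 0 := xc_smul _ (hx p)
          rw [norm_sc_of_xc he.le _ h1, norm_smul, Real.norm_of_nonneg (inv_nonneg.2 hpos.le)]
          calc ε k * ((ε k * M')⁻¹ * ‖φ p‖) ≤ ε k * ((ε k * M')⁻¹ * M') := by
                gcongr
                exact hM2 p
            _ = 1 := by field_simp
        have h3 := hPk k _ hfld
        rw [int_dv_smul _ hφ] at h3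
        rwa [inv_mul_le_iff₀ hpos] at h3
      have hlim2 : Tendsto (fun k => ε (ψ k) * M' * P) atTop (𝓝 0) := by
        have := ((hlim.comp hψ.tendsto_atTop).mul_const M').mul_const P
        simpa [Function.comp_def] using this
      exact le_of_tendsto_of_tendsto' (b2 _ (fun k => F (ψ k)) F0 (fun k => (hmin _).meas) hF0m hψl
        φ hφ hcs) hlim2 (fun k => hk (ψ k))
    intro φ hφ hcs hsub hx
    apply le_antisymm (key φ hφ hcs hsub hx)
    have h1 := key (fun p => (-1 : ℝ) • φ p) (cd_smul _ hφ) (cs_smul _ hcs)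
      ((sub_smul' _).trans hsub) (fun p => xc_smul _ (hx p))
    rw [int_dv_smul _ hφ] at h1
    linarith
  obtain ⟨A, hAm, hA⟩ := b4 _ (Bd m) ho hc hb F0 hF0m hF0s hdiv
  have hcm : MeasurableSet (cylO (Bd m) A) := meas_cylO ho hAm
  have hcs : cylO (Bd m) A ⊆ Bd m := fun p hp => hp.1
  have hT : Tendsto (fun k => volume (symmDiff (F (ψ k)) (cylO (Bd m) A))) atTop (𝓝 0) :=
    tendsto_of_tendsto_of_tendsto_of_le_of_le tendsto_const_nhds hψl (fun _ => zero_le)
      (fun k => symm_mono hA)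
  have hV := real_tendsto hb (fun k => (hmin (ψ k)).sub) hcs (fun k => (hmin (ψ k)).meas) hcm hT
  have hVA := a1 m A hAm
  refine ⟨A, ψ, ⟨hAm, ?_, ?_⟩, hψ, hT⟩
  · have h1 : volume.real (cylO (Bd m) A) ≤ NN m * v :=
      le_of_tendsto' hV (fun k => (hmin (ψ k)).le)
    rw [hVA] at h1
    exact le_of_mul_le_mul_left h1 hNN
  · intro G C hG hGv hGP
    have hGs : cylO (Bd m) G ⊆ Bd m := fun p hp => hp.1
    have hVG := a1 m G hG
    apply a3 m A hAm
    intro φ hφ hy
    have hk : ∀ k, ∫ x in F (ψ k), dv φ x ≤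
        NN m * C + Λ * (volume.real (F (ψ k)) - NN m * mu (wt m) G) := by
      intro k
      have h1 := (hmin (ψ k)).min (cylO (Bd m) G) (NN m * C) (meas_cylO ho hG) hGs
        (by rw [hVG]; exact mul_le_mul_of_nonneg_left hGv hNN.le)
        (a2 m _ (hε _).1 G hG C hGP) φ
        ⟨hφ.cd, hφ.cs, hφ.sub, fun x => by
          have h2 := hφ.bd x
          rw [sc_of_yc _ _ (hy x)] at h2 ⊢
          exact h2⟩
      rwa [hVG] at h1
    have hlim3 : Tendsto (fun k => NN m * C + Λ * (volume.real (F (ψ k)) - NN m * mu (wt m) G))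
        atTop (𝓝 (NN m * C + Λ * (volume.real (cylO (Bd m) A) - NN m * mu (wt m) G))) :=
      ((hV.sub_const _).const_mul Λ).const_add _
    have h2 := le_of_tendsto_of_tendsto' (b2 _ (fun k => F (ψ k)) (cylO (Bd m) A)
      (fun k => (hmin _).meas) hcm hT φ hφ.cd hφ.cs) hlim3 hk
    rw [hVA] at h2
    refine h2.trans (le_of_eq ?_)
    ring

end Pool.Agent.TH340.HU
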